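import Pool.Agent.H718.HG.Low

/-!
# Cones over the blowups of rooted graphs: Turan upper bound and colourings
-/

set_option autoImplicit false

open Classical

namespace Pool.Agent.H718.HG

open Pool.Agent.W979.TE

/-- `G` contains a copy of `F` -/
def Cont {V W : Type} (F : Set (Finset V)) (G : Set (Finset W)) : Prop :=
  ∃ φ : V ↪ W, ∀ A ∈ F, A.map φ ∈ G

/-- the cone with `s` apices over the `t`-blowup of `(T, R)`: a hypergraph of uniformity `s + 2` -/
def cone {V : Type} (T : SimpleGraph V) (R : Set V) (t s : ℕ) : Set (Finset (BV V R t ⊕ Fin s)) :=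
  {A | ∃ a b, (BU T R t).Adj a b ∧
    A = insert (Sum.inl a) (insert (Sum.inl b) (Finset.univ.map Function.Embedding.inr))}

theorem cone_card {V : Type} (T : SimpleGraph V) (R : Set V) (t s : ℕ) :
    ∀ A ∈ cone T R t s, A.card = s + 2 := by
  rintro A ⟨a, b, hab, rfl⟩
  rw [Finset.card_insert_of_notMem, Finset.card_insert_of_notMem, Finset.card_map,
    Finset.card_univ, Fintype.card_fin]
  · simp
  · simp [hab.ne]

theorem BU_nbr {V : Type} (T : SimpleGraph V) (R : Set V) (t : ℕ) (ht : 0 < t)
    (hiso : ∀ v, ∃ w, T.Adj v w) (a : BV V R t) : ∃ b, (BU T R t).Adj a b := by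
  obtain ⟨⟨v, i⟩, hi, hv⟩ := a
  obtain ⟨w, hw⟩ := hiso v
  simp only at hi hv
  refine ⟨⟨(w, if w ∈ R then 0 else i), ?_, ?_⟩, ?_⟩
  · simp only
    split_ifs
    · exact ht
    · exact hi
  · intro h
    simp only at h ⊢
    rw [if_pos h]
  · rw [BU, SimpleGraph.fromRel_adj]
    refine ⟨fun h => hw.ne (congrArg (fun x : BV V R t => x.1.1) h), Or.inl ⟨hw, ?_⟩⟩
    by_cases h : w ∈ R
    · exact Or.inr (Or.inr h)
    · left
      simp only [if_neg h]

/-- the upper bound for cones: links -/
theorem cone_upper {V : Type} (T : SimpleGraph V) (R : Set V) (t s : ℕ) (ht : 0 < t)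
    (hiso : ∀ v, ∃ w, T.Adj v w) (θ C : ℝ) (hC : 0 ≤ C)
    (hUB : ∀ n : ℕ, ∀ G : SimpleGraph (Fin n), ¬ HasBU T R t G →
      (G.edgeSet.ncard : ℝ) ≤ C * (n : ℝ) ^ θ)
    (n : ℕ) (G : Finset (Finset (Fin n))) (hG : ∀ A ∈ G, A.card = s + 2)
    (hfree : ¬ Cont (cone T R t s) (G : Set (Finset (Fin n)))) :
    (G.card : ℝ) ≤ (n : ℝ) ^ s * (C * (n : ℝ) ^ θ) := by
  let link : Finset (Fin n) → SimpleGraph (Fin n) := fun W =>
    { Adj := fun u v => u ≠ v ∧ u ∉ W ∧ v ∉ W ∧ insert u (insert v W) ∈ G
      symm := ⟨fun u v h => ⟨h.1.symm, h.2.2.1, h.2.1, by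
        rw [Finset.insert_comm]; exact h.2.2.2⟩⟩
      loopless := ⟨fun u h => h.1 rfl⟩ }
  have hlink : ∀ W : Finset (Fin n), W.card = s → ¬ HasBU T R t (link W) := by
    rintro W hW ⟨f, hf, hadj⟩
    apply hfree
    have hnot : ∀ a, f a ∉ W := by
      intro a
      obtain ⟨b, hb⟩ := BU_nbr T R t ht hiso a
      exact (hadj a b hb).2.1
    let Φ : BV V R t ⊕ Fin s → Fin n := Sum.elim f (W.orderEmbOfFin hW)
    have hΦ : Function.Injective Φ := by
      refine Function.Injective.sumElim hf (W.orderEmbOfFin hW).injective ?_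
      intro a i h
      apply hnot a
      rw [h]
      exact Finset.orderEmbOfFin_mem W hW i
    refine ⟨⟨Φ, hΦ⟩, ?_⟩
    rintro A ⟨a, b, hab, rfl⟩
    have h1 := (hadj a b hab).2.2.2
    have h2 : (insert (Sum.inl a) (insert (Sum.inl b) (Finset.univ.map Function.Embedding.inr)) :
        Finset (BV V R t ⊕ Fin s)).map ⟨Φ, hΦ⟩ = insert (f a) (insert (f b) W) := by
      rw [Finset.map_insert, Finset.map_insert, Finset.map_map]
      congr 2
      ext x
      simp only [Finset.mem_map, Finset.mem_univ, true_and]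
      constructor
      · rintro ⟨i, rfl⟩
        exact Finset.orderEmbOfFin_mem W hW i
      · intro hx
        have h3 := Finset.range_orderEmbOfFin W hW
        have h4 : x ∈ Set.range (W.orderEmbOfFin hW) := by
          rw [h3]; exact hx
        obtain ⟨i, hi⟩ := h4
        exact ⟨i, hi⟩
    rw [h2]
    exact h1
  rcases Nat.eq_zero_or_pos n with hn0 | hn0
  · have : G = ∅ := by
      apply Finset.eq_empty_of_forall_notMem
      intro A hA
      have h1 := hG A hA
      have h2 := Finset.card_le_univ A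
      rw [Fintype.card_fin] at h2
      omega
    rw [this]
    simp only [Finset.card_empty, Nat.cast_zero]
    positivity
  have : Nonempty (Fin n) := ⟨⟨0, hn0⟩⟩
  -- choice of the sets W
  have hW : ∀ A : Finset (Fin n), ∃ W : Finset (Fin n), A ∈ G → W ⊆ A ∧ W.card = s := by
    intro A
    by_cases hA : A ∈ G
    · obtain ⟨W, hW1, hW2⟩ := Finset.exists_subset_card_eq (s := A) (n := s)
        (by rw [hG A hA]; omega)
      exact ⟨W, fun _ => ⟨hW1, hW2⟩⟩
    · exact ⟨∅, fun h => absurd h hA⟩
  choose W hWs using hW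
  have hxy : ∀ A : Finset (Fin n), ∃ p : Fin n × Fin n, A ∈ G → p.1 ≠ p.2 ∧
      A \ W A = {p.1, p.2} := by
    intro A
    by_cases hA : A ∈ G
    · have hc : (A \ W A).card = 2 := by
        rw [Finset.card_sdiff_of_subset (hWs A hA).1, hG A hA, (hWs A hA).2]
        omega
      obtain ⟨x, y, hxy, h⟩ := Finset.card_eq_two.mp hc
      exact ⟨(x, y), fun _ => ⟨hxy, h⟩⟩
    · exact ⟨(Classical.arbitrary _, Classical.arbitrary _), fun h => absurd h hA⟩
  choose p hp using hxy
  have hmap : ∀ A ∈ G, W A ∈ Finset.powersetCard s (Finset.univ : Finset (Fin n)) := by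
    intro A hA
    rw [Finset.mem_powersetCard]
    exact ⟨Finset.subset_univ _, (hWs A hA).2⟩
  have hcount := Finset.card_eq_sum_card_fiberwise hmap
  have hfib : ∀ W0 ∈ Finset.powersetCard s (Finset.univ : Finset (Fin n)),
      ((G.filter (fun A => W A = W0)).card : ℝ) ≤ C * (n : ℝ) ^ θ := by
    intro W0 hW0
    rw [Finset.mem_powersetCard] at hW0
    refine le_trans ?_ (hUB n (link W0) (hlink W0 hW0.2))
    rw [← Set.ncard_coe_finset]
    have h1 : (((G.filter (fun A => W A = W0)) : Finset (Finset (Fin n))) :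
        Set (Finset (Fin n))).ncard ≤ (link W0).edgeSet.ncard := by
      apply Set.ncard_le_ncard_of_injOn (fun A => s((p A).1, (p A).2))
      · intro A hA
        rw [Finset.mem_coe, Finset.mem_filter] at hA
        obtain ⟨hA1, hA2⟩ := hA
        obtain ⟨h2, h3⟩ := hp A hA1
        rw [hA2] at h3
        have hx : (p A).1 ∈ A \ W0 := by rw [h3]; simp
        have hy : (p A).2 ∈ A \ W0 := by rw [h3]; simp
        rw [Finset.mem_sdiff] at hx hy
        rw [SimpleGraph.mem_edgeSet]
        refine ⟨h2, hx.2, hy.2, ?_⟩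
        have h4 : insert (p A).1 (insert (p A).2 W0) = A := by
          have h5 : A = (A \ W0) ∪ W0 := by
            rw [Finset.sdiff_union_of_subset]
            rw [← hA2]
            exact (hWs A hA1).1
          rw [h3] at h5
          calc insert (p A).1 (insert (p A).2 W0) = {(p A).1, (p A).2} ∪ W0 := by
                ext x
                simp only [Finset.mem_insert, Finset.mem_union, Finset.mem_singleton]
                tauto
            _ = A := h5.symm
        rw [h4]
        exact hA1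
      · intro A hA B hB hAB
        rw [Finset.mem_coe, Finset.mem_filter] at hA hB
        obtain ⟨hA1, hA2⟩ := hA
        obtain ⟨hB1, hB2⟩ := hB
        obtain ⟨-, h3⟩ := hp A hA1
        obtain ⟨-, h4⟩ := hp B hB1
        rw [hA2] at h3
        rw [hB2] at h4
        have h5 : A = (A \ W0) ∪ W0 := by
          rw [Finset.sdiff_union_of_subset]
          rw [← hA2]
          exact (hWs A hA1).1
        have h6 : B = (B \ W0) ∪ W0 := by
          rw [Finset.sdiff_union_of_subset]
          rw [← hB2]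
          exact (hWs B hB1).1
        rw [h5, h6, h3, h4]
        congr 1
        rcases Sym2.eq_iff.mp hAB with ⟨h7, h8⟩ | ⟨h7, h8⟩
        · rw [h7, h8]
        · rw [h7, h8, Finset.pair_comm]
    exact_mod_cast h1
  rw [hcount]
  push_cast
  calc ∑ W0 ∈ Finset.powersetCard s (Finset.univ : Finset (Fin n)),
        ((G.filter (fun A => W A = W0)).card : ℝ)
      ≤ ∑ W0 ∈ Finset.powersetCard s (Finset.univ : Finset (Fin n)), C * (n : ℝ) ^ θ :=
        Finset.sum_le_sum hfib
    _ = (Nat.choose n s : ℝ) * (C * (n : ℝ) ^ θ) := by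
        rw [Finset.sum_const, Finset.card_powersetCard, Finset.card_univ, Fintype.card_fin,
          nsmul_eq_mul]
    _ ≤ _ := by
        have hC0 : 0 ≤ C * (n : ℝ) ^ θ := by positivity
        apply mul_le_mul_of_nonneg_right _ hC0
        exact_mod_cast Nat.choose_le_pow n s

/-- **Colourings without monochromatic cones**, over a finite field. -/
theorem cone_lowq {V : Type} [Fintype V] (T : SimpleGraph V) (R : Set V) (s m e : ℕ)
    (hm : m = Rᶜ.ncard) (he : e = eS T Rᶜ) (hm0 : 0 < m)
    (hbal : ∀ S : Set V, S ⊆ Rᶜ → e * S.ncard ≤ m * eS T S) :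
    ∃ t q0 : ℕ, 0 < t ∧ ∀ (F : Type) [Field F] [Fintype F], q0 ≤ Fintype.card F →
      ∃ χ : Finset (Fin (Fintype.card F ^ e)) → Fin (Fintype.card F ^ m),
        ∀ c, ¬ Cont (cone T R t s) {A | A.card = s + 2 ∧ χ A = c} := by
  let E : Type := {ed : Sym2 V // ed ∈ T.edgeSet ∧ ∃ v ∈ Rᶜ, v ∈ ed}
  let _ : Fintype E := Fintype.ofFinite _
  have hEe : e = Fintype.card E := by
    rw [he, ← Nat.card_eq_fintype_card]
    rfl
  let U : Finset (V ⊕ Fin s) := Rᶜ.toFinset.map Function.Embedding.inl
  have hUm : m = U.card := by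
    rw [hm, Set.ncard_eq_toFinset_card', Finset.card_map]
  have hmemU : ∀ v, Sum.inl v ∈ U ↔ v ∉ R := by
    intro v; simp [U]
  have hmemU' : ∀ i : Fin s, (Sum.inr i : V ⊕ Fin s) ∉ U := by
    intro i; simp [U]
  let ed : E → Finset (V ⊕ Fin s) := fun ε =>
    ε.1.toFinset.map Function.Embedding.inl ∪ Finset.univ.map Function.Embedding.inr
  have hmem : ∀ (ε : E) (v : V), Sum.inl v ∈ ed ε ↔ v ∈ ε.1 := by
    intro ε v
    simp [ed]
  have hmem' : ∀ (ε : E) (i : Fin s), Sum.inr i ∈ ed ε := by
    intro ε i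
    simp [ed]
  have hk : ∀ ε, (ed ε).card = s + 2 := by
    intro ε
    have h1 : ε.1.toFinset.card = 2 := by
      apply Sym2.card_toFinset_of_not_isDiag
      intro h
      exact T.not_isDiag_of_mem_edgeSet ε.2.1 h
    simp only [ed]
    rw [Finset.card_union_of_disjoint, Finset.card_map, Finset.card_map, h1, Finset.card_univ,
      Fintype.card_fin, add_comm]
    rw [Finset.disjoint_left]
    intro x hx hx'
    rw [Finset.mem_map] at hx hx'
    obtain ⟨a, -, rfl⟩ := hx
    obtain ⟨b, -, h⟩ := hx'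
    simp at h
  have hed : Function.Injective ed := by
    intro ε ε' h
    apply Subtype.ext
    apply Sym2.ext
    intro v
    rw [← hmem, ← hmem, h]
  have hbal' : ∀ S ⊆ U, Fintype.card E * S.card ≤
      U.card * (Finset.univ.filter (fun ε : E => ∃ v ∈ S, v ∈ ed ε)).card := by
    intro S hS
    let S0 : Set V := {v | Sum.inl v ∈ S}
    have hS0 : S0 ⊆ Rᶜ := by
      intro v hv
      exact (hmemU v).mp (hS hv)
    have h1 := hbal S0 hS0
    have h2 : S0.ncard = S.card := by
      rw [← Set.ncard_coe_finset S]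
      have : (S : Set (V ⊕ Fin s)) = Sum.inl '' S0 := by
        ext x
        simp only [Finset.mem_coe, Set.mem_image]
        constructor
        · intro hx
          rcases x with v | i
          · exact ⟨v, hx, rfl⟩
          · exact absurd (hS hx) (hmemU' i)
        · rintro ⟨v, hv, rfl⟩
          exact hv
      rw [this, Set.ncard_image_of_injective _ Sum.inl_injective]
    rw [h2] at h1
    rw [← hEe, ← hUm]
    refine le_trans h1 (Nat.mul_le_mul_left _ ?_)
    have h3 : ({e | e ∈ T.edgeSet ∧ ∃ v ∈ S0, v ∈ e} : Set (Sym2 V)) ⊆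
        ↑((Finset.univ.filter (fun ε : E => ∃ v ∈ S, v ∈ ed ε)).image Subtype.val) := by
      rintro x ⟨h4, v, hv, hve⟩
      rw [Finset.coe_image]
      refine ⟨⟨x, h4, v, hS0 hv, hve⟩, ?_, rfl⟩
      rw [Finset.mem_coe, Finset.mem_filter]
      exact ⟨Finset.mem_univ _, Sum.inl v, hv, (hmem _ _).mpr hve⟩
    unfold eS
    refine le_trans (Set.ncard_le_ncard h3 (Finset.finite_toSet _)) ?_
    rw [Set.ncard_coe_finset]
    exact Finset.card_image_le
  obtain ⟨t, q0, ht, hlow⟩ := lowq (V ⊕ Fin s) E U (s + 2) ed hk hed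
    (fun S hS => by have h := hbal' S hS; convert h)
  refine ⟨t, q0, ht, ?_⟩
  intro F _ _ hq
  obtain ⟨χ, hχ⟩ := hlow F hq (Fintype.card F ^ e) (by rw [hEe])
  have hcol : Fintype.card (Fin U.card → F) = Fintype.card (Fin (Fintype.card F ^ m)) := by
    rw [Fintype.card_fun, Fintype.card_fin, Fintype.card_fin, ← hUm]
  obtain ⟨ψ⟩ : Nonempty ((Fin U.card → F) ≃ Fin (Fintype.card F ^ m)) := Fintype.card_eq.mp hcol
  refine ⟨fun A => ψ (χ A), ?_⟩
  rintro c ⟨Φ, hΦ⟩
  -- the copies
  let pt' : Fin t → V → BV V R t := fun k v =>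
    ⟨(v, if v ∈ R then 0 else k.1), by
      refine ⟨?_, ?_⟩
      · show (if v ∈ R then 0 else k.1) < t
        split_ifs
        · omega
        · exact k.2
      · intro h
        show (if v ∈ R then 0 else k.1) = 0
        rw [if_pos h]⟩
  have hpti : ∀ k u v, pt' k u = pt' k v → u = v := by
    intro k u v h
    exact congrArg (fun x : BV V R t => x.1.1) h
  have hadj : ∀ k u v, T.Adj u v → (BU T R t).Adj (pt' k u) (pt' k v) := by
    intro k u v huv
    rw [BU, SimpleGraph.fromRel_adj]
    refine ⟨fun h => huv.ne (hpti k u v h), Or.inl ⟨huv, ?_⟩⟩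
    show (if u ∈ R then 0 else k.1) = (if v ∈ R then 0 else k.1) ∨ u ∈ R ∨ v ∈ R
    by_cases hu : u ∈ R
    · exact Or.inr (Or.inl hu)
    · by_cases hv : v ∈ R
      · exact Or.inr (Or.inr hv)
      · left; rw [if_neg hu, if_neg hv]
  let φ : Fin t → V ⊕ Fin s → Fin (Fintype.card F ^ e) := fun k =>
    Sum.elim (fun v => Φ (Sum.inl (pt' k v))) (fun i => Φ (Sum.inr i))
  apply hχ φ (ψ.symm c)
  · intro k
    refine Function.Injective.sumElim ?_ ?_ ?_
    · intro u v h
      exact hpti k u v (Sum.inl_injective (Φ.injective h))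
    · intro i j h
      exact Sum.inr_injective (Φ.injective h)
    · intro u i h
      have := Φ.injective h
      simp at this
  · intro k k' v hv
    rcases v with v | i
    · have hvR : v ∈ R := by
        by_contra h
        exact hv ((hmemU v).mpr h)
      have : pt' k v = pt' k' v := by
        apply Subtype.ext
        show ((v, if v ∈ R then 0 else k.1) : V × ℕ) = (v, if v ∈ R then 0 else k'.1)
        rw [if_pos hvR, if_pos hvR]
      show Φ (Sum.inl (pt' k v)) = Φ (Sum.inl (pt' k' v))
      rw [this]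
    · rfl
  · intro k k' h
    obtain ⟨v0, hv0⟩ : ∃ v0, v0 ∈ Rᶜ := by
      have : Rᶜ.Nonempty := by
        rw [← Set.ncard_pos]
        omega
      exact this
    have h1 := congrFun h (Sum.inl v0)
    have h2 : pt' k v0 = pt' k' v0 := Sum.inl_injective (Φ.injective h1)
    have h3 := congrArg (fun x : BV V R t => x.1.2) h2
    simp only [pt', if_neg hv0] at h3
    exact Fin.ext h3
  · intro k ε
    obtain ⟨⟨x, hx⟩, hε⟩ : ∃ ε' : E, ε' = ε := ⟨ε, rfl⟩
    subst hε
    induction x using Sym2.ind with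
    | _ u v =>
      have huv : T.Adj u v := by
        have := hx.1
        rwa [SimpleGraph.mem_edgeSet] at this
      have h1 := hΦ _ ⟨pt' k u, pt' k v, hadj k u v huv, rfl⟩
      have h2 : (ed ⟨s(u, v), hx⟩).image (φ k) =
          (insert (Sum.inl (pt' k u)) (insert (Sum.inl (pt' k v))
            (Finset.univ.map Function.Embedding.inr)) : Finset (BV V R t ⊕ Fin s)).map Φ := by
        ext y
        simp only [Finset.mem_image, Finset.mem_map, Finset.mem_insert, Finset.mem_univ, true_and,
          Function.Embedding.inr_apply]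
        constructor
        · rintro ⟨w, hw, rfl⟩
          rcases w with w | i
          · rw [hmem, Sym2.mem_iff] at hw
            rcases hw with rfl | rfl
            · exact ⟨_, Or.inl rfl, rfl⟩
            · exact ⟨_, Or.inr (Or.inl rfl), rfl⟩
          · exact ⟨Sum.inr i, Or.inr (Or.inr ⟨i, rfl⟩), rfl⟩
        · rintro ⟨w, (rfl | rfl | ⟨i, rfl⟩), rfl⟩
          · exact ⟨Sum.inl u, (hmem _ _).mpr (by simp), rfl⟩
          · exact ⟨Sum.inl v, (hmem _ _).mpr (by simp), rfl⟩
          · exact ⟨Sum.inr i, hmem' _ i, rfl⟩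
      rw [h2]
      have h3 := h1.2
      apply ψ.injective
      rw [Equiv.apply_symm_apply]
      exact h3

end Pool.Agent.H718.HG
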