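import Pool.Agent.H718.HG.Loc

/-!
# A good tuple of polynomials: all positions, all patterns and all colours
-/

set_option autoImplicit false

open Classical

namespace Pool.Agent.H718.HG

open Pool.Agent.W979.TE Pool.Agent.W376.TE MvPolynomial

/-- Hall's theorem for balanced rooted hypergraphs -/
theorem hall {V E : Type} [Fintype E] (U : Finset V) (ed : E → Finset V)
    (hBal : ∀ S ⊆ U, Fintype.card E * S.card ≤
      U.card * (Finset.univ.filter (fun ε : E => ∃ v ∈ S, v ∈ ed ε)).card) :
    ∃ μ : {v // v ∈ U} × Fin (Fintype.card E) → E × Fin U.card,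
      Function.Injective μ ∧ ∀ p, p.1.1 ∈ ed (μ p).1 := by
  let t : {v // v ∈ U} × Fin (Fintype.card E) → Finset (E × Fin U.card) := fun p =>
    (Finset.univ.filter (fun ε : E => p.1.1 ∈ ed ε)) ×ˢ Finset.univ
  have hall : ∀ s : Finset ({v // v ∈ U} × Fin (Fintype.card E)), s.card ≤ (s.biUnion t).card := by
    intro s
    set S : Finset V := s.image (fun p => p.1.1) with hS
    have hSU : S ⊆ U := by
      intro v hv
      obtain ⟨p, _, rfl⟩ := Finset.mem_image.mp hv
      exact p.1.2
    have h1 : (s.biUnion t) =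
        (Finset.univ.filter (fun ε : E => ∃ v ∈ S, v ∈ ed ε)) ×ˢ
          (Finset.univ : Finset (Fin U.card)) := by
      ext ⟨ε, l⟩
      simp only [t, Finset.mem_biUnion, Finset.mem_product, Finset.mem_filter, Finset.mem_univ,
        true_and, and_true, hS, Finset.mem_image]
      constructor
      · rintro ⟨p, hp, h⟩
        exact ⟨p.1.1, ⟨p, hp, rfl⟩, h⟩
      · rintro ⟨v, ⟨p, hp, rfl⟩, h⟩
        exact ⟨p, hp, h⟩
    have h2 : s.card ≤ S.card * Fintype.card E := by
      have hinj : Set.InjOn (fun p : {v // v ∈ U} × Fin (Fintype.card E) => (p.1.1, p.2)) s := by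
        rintro ⟨⟨v, hv⟩, i⟩ _ ⟨⟨w, hw⟩, j⟩ _ h
        simp only [Prod.mk.injEq] at h
        obtain ⟨h1, h2⟩ := h
        subst h1; subst h2; rfl
      have h3 : (s.image (fun p : {v // v ∈ U} × Fin (Fintype.card E) => (p.1.1, p.2))).card
          = s.card := Finset.card_image_of_injOn hinj
      rw [← h3]
      have h4 : s.image (fun p : {v // v ∈ U} × Fin (Fintype.card E) => (p.1.1, p.2))
          ⊆ S ×ˢ (Finset.univ : Finset (Fin (Fintype.card E))) := by
        intro q hq
        obtain ⟨p, hp, rfl⟩ := Finset.mem_image.mp hq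
        exact Finset.mem_product.mpr ⟨Finset.mem_image_of_mem _ hp, Finset.mem_univ _⟩
      refine (Finset.card_le_card h4).trans ?_
      rw [Finset.card_product, Finset.card_univ, Fintype.card_fin]
    rw [h1, Finset.card_product, Finset.card_univ, Fintype.card_fin]
    have h5 := hBal S hSU
    calc s.card ≤ S.card * Fintype.card E := h2
      _ = Fintype.card E * S.card := Nat.mul_comm _ _
      _ ≤ _ := h5
      _ = _ := Nat.mul_comm _ _
  obtain ⟨μ, hinj, hμ⟩ := (Finset.all_card_le_biUnion_card_iff_exists_injective t).mp hall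
  refine ⟨μ, hinj, fun p => ?_⟩
  have := hμ p
  simp only [t, Finset.mem_product, Finset.mem_filter, Finset.mem_univ, true_and, and_true] at this
  exact this

/-- existence of a good tuple of polynomials -/
theorem good (V E J : Type) [Fintype V] [Fintype E] [Fintype J] (U : Finset V) (e : ℕ)
    (he : Fintype.card E ≤ e)
    (μ : {v // v ∈ U} × Fin e → E × Fin U.card) (hμ : Function.Injective μ) :
    ∃ d K q0 : ℕ, ∀ (F : Type) [Field F] [Fintype F], q0 ≤ Fintype.card F →
      ∃ f : OmJ F J U.card e d,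
        ∀ σ : E → J → V, (∀ p, ∃ j, σ (μ p).1 j = p.1.1) →
        ∀ z : V → Fin e → F, Function.Injective (zz σ z) →
        ∀ col : Fin U.card → F,
          Cert K (fun p : {v // v ∈ U} × Fin e =>
            sb U σ z (μ p).1 (f (μ p).2 : MvPolynomial (J × Fin e) F) -
              C (col (μ p).2)) (fun p => z p.1.1 p.2) := by
  obtain ⟨vv, hvv⟩ : ∃ vv, vv = Fintype.card V := ⟨_, rfl⟩
  obtain ⟨n, hn⟩ : ∃ n, n = U.card * e := ⟨_, rfl⟩
  obtain ⟨L, hL⟩ : ∃ L, L = e * vv + U.card + 1 := ⟨_, rfl⟩
  obtain ⟨K, hK⟩ : ∃ K, K = NN n L n := ⟨_, rfl⟩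
  obtain ⟨A, hA⟩ : ∃ A, A = Fintype.card (E → J → V) * (n * K ^ n) := ⟨_, rfl⟩
  refine ⟨e * (K + 1) ^ 2 + K, K, A + 1, ?_⟩
  intro F _ _ hq
  obtain ⟨q, hqd⟩ : ∃ q, q = Fintype.card F := ⟨_, rfl⟩
  rw [← hqd] at hq
  obtain ⟨d, hd⟩ : ∃ d, d = e * (K + 1) ^ 2 + K := ⟨_, rfl⟩
  rw [← hd]
  have hfin : Finite (OmJ F J U.card e d) := by
    have : Finite (restrictDegree (J × Fin e) F d) := fin_restrict F _ d
    exact Pi.finite
  let hft : Fintype (OmJ F J U.card e d) := Fintype.ofFinite _
  -- bad sets
  let B : (E → J → V) × (V → Fin e → F) × (Fin U.card → F) → Finset (OmJ F J U.card e d) :=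
    fun x => Finset.univ.filter (fun f => (∀ p, ∃ j, x.1 (μ p).1 j = p.1.1) ∧
      Function.Injective (zz x.1 x.2.1) ∧
      ¬ Cert K (fun p : {v // v ∈ U} × Fin e =>
            sb U x.1 x.2.1 (μ p).1 (f (μ p).2 : MvPolynomial (J × Fin e) F) - C (x.2.2 (μ p).2))
            (fun p => x.2.1 p.1.1 p.2))
  have hB : ∀ x, (B x).card * q ^ L ≤ n * K ^ n * Fintype.card (OmJ F J U.card e d) := by
    intro x
    by_cases hb : ∀ p, ∃ j, x.1 (μ p).1 j = p.1.1
    · by_cases hz : Function.Injective (zz x.1 x.2.1)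
      · have := loc F V E J U x.1 L K d e he μ x.2.1 x.2.2 hμ hb hz (by rw [hK, hn]) hd.ge
        rw [Nat.card_eq_fintype_card, Fintype.card_subtype, Nat.card_eq_fintype_card, ← hqd,
          ← hn] at this
        refine le_trans (Nat.mul_le_mul_right _ ?_) this
        apply Finset.card_le_card
        intro f hf
        simp only [B, Finset.mem_filter, Finset.mem_univ, true_and] at hf ⊢
        exact hf.2.2
      · have : B x = ∅ := by
          apply Finset.filter_eq_empty_iff.mpr
          rintro f - ⟨_, h, _⟩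
          exact hz h
        rw [this]; simp
    · have : B x = ∅ := by
        apply Finset.filter_eq_empty_iff.mpr
        rintro f - ⟨h, _, _⟩
        exact hb h
      rw [this]; simp
  let Bad : Finset (OmJ F J U.card e d) :=
    (Finset.univ : Finset ((E → J → V) × (V → Fin e → F) × (Fin U.card → F))).biUnion B
  have hqpos : 0 < q := by rw [hqd]; exact Fintype.card_pos
  have hBad : Bad.card * q ^ L ≤
      A * q ^ (e * vv + U.card) * Fintype.card (OmJ F J U.card e d) := by
    calc Bad.card * q ^ L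
        ≤ (∑ x : (E → J → V) × (V → Fin e → F) × (Fin U.card → F), (B x).card) * q ^ L :=
          Nat.mul_le_mul_right _ Finset.card_biUnion_le
      _ = ∑ x : (E → J → V) × (V → Fin e → F) × (Fin U.card → F), (B x).card * q ^ L := by
          rw [Finset.sum_mul]
      _ ≤ ∑ x : (E → J → V) × (V → Fin e → F) × (Fin U.card → F),
            n * K ^ n * Fintype.card (OmJ F J U.card e d) :=
          Finset.sum_le_sum (fun x _ => hB x)
      _ = A * q ^ (e * vv + U.card) * Fintype.card (OmJ F J U.card e d) := by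
          rw [Finset.sum_const, Finset.card_univ, Fintype.card_prod, Fintype.card_prod, smul_eq_mul]
          have h1 : Fintype.card (V → Fin e → F) = q ^ (e * vv) := by
            rw [Fintype.card_fun, Fintype.card_fun, Fintype.card_fin, ← hvv, ← hqd, ← pow_mul]
          have h2 : Fintype.card (Fin U.card → F) = q ^ U.card := by
            rw [Fintype.card_fun, Fintype.card_fin, ← hqd]
          rw [h1, h2, hA, pow_add]
          ring
  have hBad2 : Bad.card * q ≤ A * Fintype.card (OmJ F J U.card e d) := by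
    have hLq : q ^ L = q ^ (e * vv + U.card) * q := by
      rw [hL, pow_succ]
    rw [hLq] at hBad
    have hpos : 0 < q ^ (e * vv + U.card) := pow_pos hqpos _
    apply Nat.le_of_mul_le_mul_left _ hpos
    calc q ^ (e * vv + U.card) * (Bad.card * q)
        = Bad.card * (q ^ (e * vv + U.card) * q) := by ring
      _ ≤ A * q ^ (e * vv + U.card) * Fintype.card (OmJ F J U.card e d) := hBad
      _ = _ := by ring
  have hpos : 0 < Fintype.card (OmJ F J U.card e d) := Fintype.card_pos
  have hlt : Bad.card < Fintype.card (OmJ F J U.card e d) := by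
    by_contra hcon
    push Not at hcon
    have h1 : Fintype.card (OmJ F J U.card e d) * (A + 1) ≤ Bad.card * q :=
      Nat.mul_le_mul hcon hq
    generalize Fintype.card (OmJ F J U.card e d) = N at *
    nlinarith
  obtain ⟨f, hf⟩ : ∃ f, f ∉ Bad := by
    by_contra hcon
    push Not at hcon
    have : Bad = Finset.univ := Finset.eq_univ_iff_forall.mpr hcon
    rw [this, Finset.card_univ] at hlt
    exact lt_irrefl _ hlt
  refine ⟨f, ?_⟩
  intro σ hσ z hz col
  by_contra hcon
  apply hf
  apply Finset.mem_biUnion.mpr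
  refine ⟨(σ, z, col), Finset.mem_univ _, ?_⟩
  simp only [B, Finset.mem_filter, Finset.mem_univ, true_and]
  exact ⟨hσ, hz, hcon⟩

end Pool.Agent.H718.HG
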