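import Pool.Graph.R_seed8.W979.TE.Lower

/-!
# Few tuples of polynomials have no certificate: hyperedges

The generalisation of `Pool.Agent.W376.TE.loc` from edges to hyperedges: `σ ε : J → V` lists the
vertices of the hyperedge `ε`.
-/

set_option autoImplicit false

open Classical

namespace Pool.Agent.H718.HG

open Pool.Agent.W979.TE Pool.Agent.W376.TE MvPolynomial

/-- tuples of polynomials in `J × Fin e` variables of individual degrees at most `d` -/
abbrev OmJ (F J : Type) [Field F] (m e d : ℕ) : Type :=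
  Fin m → MvPolynomial.restrictDegree (J × Fin e) F d

section main

variable {F V E J : Type} [Field F] [Fintype V] (U : Finset V)
  (σ : E → J → V) {e : ℕ} (z : V → Fin e → F)

/-- substitution of the positions of the vertices of `ε` -/
noncomputable def sb (ε : E) :
    MvPolynomial (J × Fin e) F →ₐ[F] MvPolynomial ({v // v ∈ U} × Fin e) F :=
  MvPolynomial.aeval (fun p : J × Fin e => pos U z (σ ε p.1) p.2)

/-- the position of the vertices of an edge -/
def zz (ε : E) : J × Fin e → F := fun p => z (σ ε p.1) p.2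

/-- substitution followed by translation -/
noncomputable def ph (ε : E) :
    MvPolynomial (J × Fin e) F →ₐ[F] MvPolynomial ({v // v ∈ U} × Fin e) F :=
  (tr (xx U z)).comp (sb U σ z ε)

lemma ph_X (ε : E) (p : J × Fin e) : ph U σ z ε (X p - C (zz σ z ε p)) =
    if h : σ ε p.1 ∈ U then X (⟨σ ε p.1, h⟩, p.2) else 0 := by
  rw [← tr_pos, ph, AlgHom.comp_apply]
  congr 1
  simp [sb, zz, algHom_C]

lemma map_ph (ε : E) : (pt (zz σ z ε)).map (ph U σ z ε) ≤
    idealOfVars ({v // v ∈ U} × Fin e) F := by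
  rw [pt, Ideal.map_span, Ideal.span_le]
  rintro _ ⟨_, ⟨c, rfl⟩, rfl⟩
  have hX : ∀ q : {v // v ∈ U} × Fin e, (X q : MvPolynomial _ F) ∈ idealOfVars _ F :=
    fun q => Ideal.subset_span ⟨q, rfl⟩
  change ph U σ z ε (X c - C (zz σ z ε c)) ∈ idealOfVars _ F
  rw [ph_X]
  split_ifs
  · exact hX _
  · exact Ideal.zero_mem _

lemma ph_mem {ε : E} {q : MvPolynomial (J × Fin e) F} {K : ℕ}
    (hq : q ∈ pt (zz σ z ε) ^ K) : ph U σ z ε q ∈ idealOfVars ({v // v ∈ U} × Fin e) F ^ K := by
  have h1 := Ideal.mem_map_of_mem (ph U σ z ε) hq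
  rw [Ideal.map_pow] at h1
  exact Ideal.pow_right_mono (map_ph U σ z ε) K h1

lemma ph_cc {ε : E} {p : {v // v ∈ U} × Fin e} {j : J} (h : σ ε j = p.1.1) :
    ph U σ z ε (X (j, p.2) - C (zz σ z ε (j, p.2))) = X p := by
  obtain ⟨⟨v, hv⟩, i⟩ := p
  rw [ph_X]
  simp only at h ⊢
  subst h
  rw [dif_pos hv]

end main

section key

variable {F V E J : Type} [Field F] [Fintype V] (U : Finset V)
  (σ : E → J → V) {e : ℕ} (z : V → Fin e → F)

lemma pert_key {K : ℕ} {μ : {v // v ∈ U} × Fin e → E × Fin U.card} (hM1 : Function.Injective μ)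
    (cj : {v // v ∈ U} × Fin e → J)
    (hM2 : ∀ p, σ (μ p).1 (cj p) = p.1.1)
    (B : E → MvPolynomial (J × Fin e) F)
    (hB2 : ∀ ε, B ε - 1 ∈ pt (zz σ z ε) ^ (K + 1))
    (hB3 : ∀ ε ε', ε' ≠ ε → B ε ∈ pt (zz σ z ε') ^ (K + 1))
    (p : {v // v ∈ U} × Fin e) (lam : Fin K → F)
    (δ : Fin U.card → MvPolynomial (J × Fin e) F)
    (hδ : δ (μ p).2 = B (μ p).1 * QQ (cj p, p.2) (zz σ z (μ p).1 (cj p, p.2)) lam)
    (hδ0 : ∀ l, l ≠ (μ p).2 → δ l = 0) (j : {v // v ∈ U} × Fin e) :
    ph U σ z (μ j).1 (δ (μ j).2) - (if j = p then lamP p lam else 0) ∈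
      idealOfVars ({v // v ∈ U} × Fin e) F ^ (K + 1) := by
  by_cases hj : j = p
  · subst hj
    rw [if_pos rfl, hδ]
    have h2 : ph U σ z (μ j).1 (QQ (cj j, j.2) (zz σ z (μ j).1 (cj j, j.2)) lam) = lamP j lam := by
      unfold QQ lamP
      rw [map_sum]
      apply Finset.sum_congr rfl
      intro k _
      rw [map_mul, map_pow, ph_cc U σ z (hM2 j), algHom_C]
      rfl
    have h3 : ph U σ z (μ j).1 (B (μ j).1 * QQ (cj j, j.2)
        (zz σ z (μ j).1 (cj j, j.2)) lam) - lamP j lam =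
        ph U σ z (μ j).1 (B (μ j).1 - 1) * lamP j lam := by
      rw [map_mul, h2, map_sub, map_one]
      ring
    rw [h3]
    exact Ideal.mul_mem_right _ _ (ph_mem U σ z (hB2 _))
  · rw [if_neg hj, sub_zero]
    by_cases hl : (μ j).2 = (μ p).2
    · rw [hl, hδ]
      have hε : (μ j).1 ≠ (μ p).1 := fun h => hj (hM1 (Prod.ext h hl))
      apply ph_mem
      exact Ideal.mul_mem_right _ _ (hB3 _ _ hε)
    · rw [hδ0 _ hl, map_zero]
      exact Ideal.zero_mem _

end key

/-- for fixed positions and a fixed colour few tuples of polynomials have no certificate -/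
theorem loc (F V E J : Type) [Field F] [Fintype F] [Fintype V]
    [Fintype E] [Fintype J] (U : Finset V) (σ : E → J → V) (L K d e : ℕ)
    (he : Fintype.card E ≤ e)
    (μ : {v // v ∈ U} × Fin e → E × Fin U.card) (z : V → Fin e → F) (col : Fin U.card → F)
    (hM1 : Function.Injective μ) (hM2 : ∀ p, ∃ j, σ (μ p).1 j = p.1.1)
    (hinj : Function.Injective (zz σ z))
    (hK : K = NN (U.card * e) L (U.card * e)) (hd : e * (K + 1) ^ 2 + K ≤ d) :
    Nat.card {f : OmJ F J U.card e d //
        ¬ Cert K (fun p : {v // v ∈ U} × Fin e =>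
            sb U σ z (μ p).1 (f (μ p).2 : MvPolynomial (J × Fin e) F) - C (col (μ p).2))
              (fun p => z p.1.1 p.2)} * Fintype.card F ^ L ≤
      U.card * e * K ^ (U.card * e) * Nat.card (OmJ F J U.card e d) := by
  have hfin : Finite (OmJ F J U.card e d) := by
    have : Finite (restrictDegree (J × Fin e) F d) := fin_restrict F _ d
    exact Pi.finite
  let hft : Fintype (OmJ F J U.card e d) := Fintype.ofFinite _
  choose cj hcj using hM2
  have hbump : ∀ ε : E, ∃ B : MvPolynomial (J × Fin e) F,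
      (∀ c, degreeOf c B ≤ e * (K + 1) ^ 2) ∧ B - 1 ∈ pt (zz σ z ε) ^ (K + 1) ∧
      ∀ ε', ε' ≠ ε → B ∈ pt (zz σ z ε') ^ (K + 1) := by
    intro ε
    obtain ⟨B, h1, h2, h3⟩ := Pool.Agent.W932.TE.bump F (J × Fin e) K e
      (Finset.univ.image (zz σ z)) (zz σ z ε)
      (Finset.mem_image_of_mem _ (Finset.mem_univ _))
      (Finset.card_image_le.trans (by rw [Finset.card_univ]; exact he))
    exact ⟨B, h1, h2, fun ε' hε => h3 _ (Finset.mem_image_of_mem _ (Finset.mem_univ _))
      fun h => hε (hinj h)⟩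
  choose B hB1 hB2 hB3 using hbump
  -- the perturbations
  have hQ : ∀ (p : {v // v ∈ U} × Fin e) (lam : Fin K → F), B (μ p).1 * QQ (cj p, p.2)
      (zz σ z (μ p).1 (cj p, p.2)) lam ∈ restrictDegree (J × Fin e) F d := by
    intro p lam
    rw [mem_restrictDegree]
    intro s hs i
    have h1 := (degreeOf_mul_le i (B (μ p).1) (QQ (cj p, p.2)
      (zz σ z (μ p).1 (cj p, p.2)) lam)).trans
        ((Nat.add_le_add (hB1 _ i) (deg_QQ i _ _ lam)).trans hd)
    exact degreeOf_le_iff.1 h1 s hs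
  let Λ : {v // v ∈ U} × Fin e → (Fin K → F) → restrictDegree (J × Fin e) F d :=
    fun p lam => ⟨_, hQ p lam⟩
  let pert : {v // v ∈ U} × Fin e → (Fin K → F) → (OmJ F J U.card e d ≃ OmJ F J U.card e d) :=
    fun p lam => Equiv.addRight (Pi.single (μ p).2 (Λ p lam))
  let G : OmJ F J U.card e d → {v // v ∈ U} × Fin e → MvPolynomial ({v // v ∈ U} × Fin e) F :=
    fun f p => ph U σ z (μ p).1 (f (μ p).2 : MvPolynomial (J × Fin e) F) - C (col (μ p).2)
  have hcard : Fintype.card ({v // v ∈ U} × Fin e) = U.card * e := by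
    rw [Fintype.card_prod, Fintype.card_fin]
    congr 1
    exact Fintype.card_coe U
  have hpert : ∀ p lam ω j, G (pert p lam ω) j - G ω j - (if j = p then lamP p lam else 0) ∈
      idealOfVars ({v // v ∈ U} × Fin e) F ^ (K + 1) := by
    intro p lam ω j
    have h1 : G (pert p lam ω) j - G ω j = ph U σ z (μ j).1
        (((Pi.single (μ p).2 (Λ p lam) : OmJ F J U.card e d) (μ j).2 :
          restrictDegree (J × Fin e) F d) : MvPolynomial (J × Fin e) F) := by
      have h2 : (pert p lam ω) (μ j).2 =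
          ω (μ j).2 + (Pi.single (μ p).2 (Λ p lam) : OmJ F J U.card e d) (μ j).2 := rfl
      simp only [G]
      rw [h2, Submodule.coe_add, map_add]
      ring
    rw [h1]
    refine pert_key U σ z hM1 cj hcj B hB2 hB3 p lam (fun l =>
      (((Pi.single (μ p).2 (Λ p lam) : OmJ F J U.card e d) l :
          restrictDegree (J × Fin e) F d) : MvPolynomial (J × Fin e) F)) ?_ ?_ j
    · simp only [Pi.single_eq_same]
      rfl
    · intro l hl
      simp only [Pi.single_eq_of_ne hl]
      rfl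
  have key := Pool.Agent.W312.TE.seq (Pool.Agent.W154.TE.main Pool.Agent.W932.TE.res) F
    ({v // v ∈ U} × Fin e) (OmJ F J U.card e d) L K G pert
    (by rw [hcard]; exact hK) (fun p lam ω j => by
      have h := hpert p lam ω j
      convert h)
  rw [hcard] at key
  rw [Nat.card_eq_fintype_card, Nat.card_eq_fintype_card, Fintype.card_subtype]
  refine le_trans (Nat.mul_le_mul_right _ (Finset.card_le_card ?_)) key
  intro f hf
  rw [Finset.mem_filter] at hf ⊢
  refine ⟨Finset.mem_univ _, fun h => hf.2 ?_⟩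
  refine cert_of K _ _ ?_
  have hG : (fun j => tr (fun p : {v // v ∈ U} × Fin e => z p.1.1 p.2)
      (sb U σ z (μ j).1 (f (μ j).2 : MvPolynomial (J × Fin e) F) - C (col (μ j).2))) = G f := by
    funext j
    rw [map_sub]
    congr 1
    simp [tr, algHom_C]
  rw [hG]
  exact h

end Pool.Agent.H718.HG
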