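import Pool.Agent.H718.HG.Good

/-!
# Colourings of complete hypergraphs without monochromatic copies: finite fields
-/

set_option autoImplicit false

open Classical

namespace Pool.Agent.H718.HG

open Pool.Agent.W979.TE Pool.Agent.W376.TE MvPolynomial

theorem sb_deg {F V E J : Type} [Field F] [Fintype V] [Fintype J] (U : Finset V) (σ : E → J → V)
    {e d : ℕ} (z : V → Fin e → F) (ε : E) (P : MvPolynomial (J × Fin e) F)
    (hP : P ∈ MvPolynomial.restrictDegree (J × Fin e) F d) (c : F)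
    (j : {v // v ∈ U} × Fin e) :
    MvPolynomial.degreeOf j (sb U σ z ε P - C c) ≤ Fintype.card J * e * d := by
  have h0 : MvPolynomial.degreeOf j (sb U σ z ε P) ≤ Fintype.card J * e * d := by
    unfold sb
    rw [MvPolynomial.aeval_def, MvPolynomial.eval₂_eq']
    refine le_trans (MvPolynomial.degreeOf_sum_le _ _ _) ?_
    apply Finset.sup_le
    intro s hs
    rw [MvPolynomial.mem_restrictDegree] at hP
    refine le_trans (MvPolynomial.degreeOf_mul_le _ _ _) ?_
    have h1 : MvPolynomial.degreeOf j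
        ((algebraMap F (MvPolynomial ({v // v ∈ U} × Fin e) F)) (MvPolynomial.coeff s P)) = 0 :=
      MvPolynomial.degreeOf_C _ _
    rw [h1, zero_add]
    refine le_trans (MvPolynomial.degreeOf_prod_le _ _ _) ?_
    calc ∑ i : J × Fin e, MvPolynomial.degreeOf j (pos U z (σ ε i.1) i.2 ^ s i)
        ≤ ∑ i : J × Fin e, d := by
          apply Finset.sum_le_sum
          intro i _
          refine le_trans (MvPolynomial.degreeOf_pow_le _ _ _) ?_
          have h2 := Pool.Agent.W493.TE.pos_deg U z (σ ε i.1) i.2 j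
          calc s i * MvPolynomial.degreeOf j (pos U z (σ ε i.1) i.2)
              ≤ s i * 1 := Nat.mul_le_mul_left _ h2
            _ = s i := mul_one _
            _ ≤ d := hP s hs i
      _ = Fintype.card J * e * d := by
          rw [Finset.sum_const, Finset.card_univ, Fintype.card_prod, Fintype.card_fin,
            smul_eq_mul]
  rw [sub_eq_add_neg, ← C_neg]
  refine (degreeOf_add_le _ _ _).trans ?_
  rw [degreeOf_C]
  exact max_le h0 (Nat.zero_le _)

theorem sb_eval {F V E J : Type} [Field F] (U : Finset V) (σ : E → J → V)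
    {e : ℕ} (z : V → Fin e → F) (ε : E) (P : MvPolynomial (J × Fin e) F) :
    MvPolynomial.eval (fun p : {v // v ∈ U} × Fin e => z p.1.1 p.2) (sb U σ z ε P) =
      MvPolynomial.eval (zz σ z ε) P := by
  unfold sb
  rw [← MvPolynomial.aeval_eq_eval, MvPolynomial.comp_aeval_apply,
    ← MvPolynomial.aeval_eq_eval]
  congr 1
  apply congrArg
  have hpos : ∀ v i, (MvPolynomial.aeval (fun p : {v // v ∈ U} × Fin e => z p.1.1 p.2))
      (pos U z v i) = z v i := by
    intro v i
    unfold pos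
    split_ifs with h
    · simp
    · simp
  funext i
  exact hpos _ _

theorem sb_congr {F V E J : Type} [Field F] (U : Finset V) (σ : E → J → V) {e : ℕ}
    (z z' : V → Fin e → F) (h : ∀ v, v ∉ U → z v = z' v) : sb U σ z = sb U σ z' := by
  have hpos : ∀ v, pos U z v = pos U z' v := by
    intro v
    funext i
    unfold pos
    split_ifs with h1
    · rfl
    · rw [h v h1]
  funext ε
  unfold sb
  simp only [hpos]

/-- **Lower bound for rooted hypergraphs over a finite field.** A colouring of the `k`-subsets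
of `q ^ e` points by `q ^ m` colours, for which no `t` copies of the balanced rooted hypergraph
`(ed, U)` with the same roots have all their edges of one colour. -/
theorem lowq (V E : Type) [Fintype V] [Fintype E] (U : Finset V) (k : ℕ) (ed : E → Finset V)
    (hk : ∀ ε, (ed ε).card = k) (hed : Function.Injective ed)
    (hbal : ∀ S ⊆ U, Fintype.card E * S.card ≤
      U.card * (Finset.univ.filter (fun ε : E => ∃ v ∈ S, v ∈ ed ε)).card) :
    ∃ t q0 : ℕ, 0 < t ∧ ∀ (F : Type) [Field F] [Fintype F], q0 ≤ Fintype.card F →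
      ∀ N : ℕ, N = Fintype.card F ^ Fintype.card E →
      ∃ χ : Finset (Fin N) → (Fin U.card → F), ∀ (φ : Fin t → V → Fin N) (c : Fin U.card → F),
        (∀ κ, Function.Injective (φ κ)) → (∀ κ κ' v, v ∉ U → φ κ v = φ κ' v) →
        Function.Injective φ → ¬ ∀ κ ε, χ ((ed ε).image (φ κ)) = c := by
  obtain ⟨e, he⟩ : ∃ e, e = Fintype.card E := ⟨_, rfl⟩
  obtain ⟨μ, hμ1, hμ2⟩ : ∃ μ : {v // v ∈ U} × Fin e → E × Fin U.card,
      Function.Injective μ ∧ ∀ p, p.1.1 ∈ ed (μ p).1 := by
    subst he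
    exact hall U ed hbal
  rw [← he]
  obtain ⟨d, K, q0, hg⟩ := good V E (Fin k) U e he.ge μ hμ1
  obtain ⟨C0, hC⟩ := Pool.Agent.W979.TE.bnd ({v // v ∈ U} × Fin e) ({v // v ∈ U} × Fin e)
    (k * e * d) K
  refine ⟨Fintype.card (E → Fin k → V) * C0 + 1, q0, Nat.succ_pos _, ?_⟩
  obtain ⟨t, ht⟩ : ∃ t, t = Fintype.card (E → Fin k → V) * C0 + 1 := ⟨_, rfl⟩
  rw [← ht]
  intro F _ _ hq N hN
  obtain ⟨f, hf⟩ := hg F hq
  have hcardN : Fintype.card (Fin N) = Fintype.card (Fin e → F) := by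
    rw [Fintype.card_fin, Fintype.card_fun, Fintype.card_fin, hN]
  obtain ⟨ψ⟩ : Nonempty (Fin N ≃ (Fin e → F)) := Fintype.card_eq.mp hcardN
  refine ⟨fun A => if h : A.card = k then fun l => MvPolynomial.eval
    (fun p : Fin k × Fin e => ψ (A.orderEmbOfFin h p.1) p.2)
      (f l : MvPolynomial (Fin k × Fin e) F) else 0, ?_⟩
  intro φ c hφ1 hφ2 hφ3 hmono
  -- the sets
  have hA : ∀ κ ε, ((ed ε).image (φ κ)).card = k := fun κ ε => by
    rw [Finset.card_image_of_injective _ (hφ1 κ), hk]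
  have hpat : ∀ κ ε (j : Fin k), ∃ v ∈ ed ε,
      φ κ v = ((ed ε).image (φ κ)).orderEmbOfFin (hA κ ε) j := by
    intro κ ε j
    have := Finset.orderEmbOfFin_mem ((ed ε).image (φ κ)) (hA κ ε) j
    obtain ⟨v, hv, hv2⟩ := Finset.mem_image.mp this
    exact ⟨v, hv, hv2⟩
  choose pat hpat1 hpat2 using hpat
  obtain ⟨σ, hσ⟩ := Fintype.exists_lt_card_fiber_of_mul_lt_card
    (pat : Fin t → (E → Fin k → V)) (n := C0) (by
    rw [Fintype.card_fin]
    omega)
  obtain ⟨κ0, hκ0⟩ := Finset.card_pos.mp (lt_of_le_of_lt (Nat.zero_le _) hσ)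
  rw [Finset.mem_filter] at hκ0
  have hκ0c := hκ0.2
  let z : Fin t → V → Fin e → F := fun κ v => ψ (φ κ v)
  have hzz : ∀ κ, pat κ = σ → ∀ ε, zz σ (z κ) ε = fun p : Fin k × Fin e =>
      ψ (((ed ε).image (φ κ)).orderEmbOfFin (hA κ ε) p.1) p.2 := by
    intro κ hκ ε
    funext p
    show ψ (φ κ (σ ε p.1)) p.2 = _
    rw [← hκ, hpat2]
  have hmat : ∀ p, ∃ j, σ (μ p).1 j = p.1.1 := by
    intro p
    have h1 : φ κ0 p.1.1 ∈ (ed (μ p).1).image (φ κ0) := Finset.mem_image_of_mem _ (hμ2 p)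
    have h2 := Finset.range_orderEmbOfFin ((ed (μ p).1).image (φ κ0)) (hA κ0 (μ p).1)
    have h3 : φ κ0 p.1.1 ∈ Set.range
        (((ed (μ p).1).image (φ κ0)).orderEmbOfFin (hA κ0 (μ p).1)) := by
      rw [h2]
      exact_mod_cast h1
    obtain ⟨j, hj⟩ := h3
    refine ⟨j, ?_⟩
    apply hφ1 κ0
    rw [← hj, ← hκ0c]
    exact hpat2 κ0 _ j
  have hinj : ∀ κ, pat κ = σ → Function.Injective (zz σ (z κ)) := by
    intro κ hκ ε ε' h
    rw [hzz κ hκ, hzz κ hκ] at h
    have h1 : ∀ j, ((ed ε).image (φ κ)).orderEmbOfFin (hA κ ε) j =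
        ((ed ε').image (φ κ)).orderEmbOfFin (hA κ ε') j := by
      intro j
      apply ψ.injective
      funext i
      exact congrFun h (j, i)
    have h2 : (ed ε).image (φ κ) = (ed ε').image (φ κ) := by
      rw [← Finset.coe_inj, ← Finset.range_orderEmbOfFin _ (hA κ ε),
        ← Finset.range_orderEmbOfFin _ (hA κ ε')]
      congr 1
      funext j
      exact h1 j
    exact hed (Finset.image_injective (hφ1 κ) h2)
  let G : {v // v ∈ U} × Fin e → MvPolynomial ({v // v ∈ U} × Fin e) F := fun p =>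
    sb U σ (z κ0) (μ p).1 (f (μ p).2 : MvPolynomial (Fin k × Fin e) F) - C (c (μ p).2)
  have hCG := hC F G (fun j i => by
    have := sb_deg U σ (z κ0) (μ j).1 _ (f (μ j).2).2 (c (μ j).2) i
    rwa [Fintype.card_fin] at this)
  let X : Fin t → ({v // v ∈ U} × Fin e → F) := fun κ p => z κ p.1.1 p.2
  have hroot : ∀ κ v, v ∉ U → z κ v = z κ0 v := by
    intro κ v hv
    show ψ (φ κ v) = ψ (φ κ0 v)
    rw [hφ2 κ κ0 v hv]
  have hXmem : ∀ κ, pat κ = σ → X κ ∈ {x : {v // v ∈ U} × Fin e → F |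
      (∀ j, MvPolynomial.eval x (G j) = 0) ∧ Cert K G x} := by
    intro κ hκ
    have hGk : G = fun p => sb U σ (z κ) (μ p).1
        (f (μ p).2 : MvPolynomial (Fin k × Fin e) F) - C (c (μ p).2) := by
      funext p
      show sb U σ (z κ0) (μ p).1 _ - _ = sb U σ (z κ) (μ p).1 _ - _
      rw [sb_congr U σ (z κ0) (z κ) (fun v hv => (hroot κ v hv).symm)]
    refine ⟨?_, ?_⟩
    · intro j
      rw [hGk]
      show MvPolynomial.eval (fun p : {v // v ∈ U} × Fin e => z κ p.1.1 p.2)
        (sb U σ (z κ) (μ j).1 _ - C _) = 0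
      rw [map_sub, sb_eval, eval_C, hzz κ hκ, sub_eq_zero]
      have h1 := hmono κ (μ j).1
      simp only [dif_pos (hA κ (μ j).1)] at h1
      exact congrFun h1 (μ j).2
    · rw [hGk]
      exact hf σ hmat (z κ) (hinj κ hκ) c
  have hXinj : Set.InjOn X {κ | pat κ = σ} := by
    intro κ _ κ' _ h
    apply hφ3
    funext v
    apply ψ.injective
    by_cases hv : v ∈ U
    · funext i
      exact congrFun h (⟨v, hv⟩, i)
    · exact (hroot κ v hv).trans (hroot κ' v hv).symm
  have hle : (Finset.univ.filter (fun κ => pat κ = σ)).card ≤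
      {x : {v // v ∈ U} × Fin e → F |
      (∀ j, MvPolynomial.eval x (G j) = 0) ∧ Cert K G x}.ncard := by
    rw [← Set.ncard_coe_finset]
    apply Set.ncard_le_ncard_of_injOn X
    · intro κ hκ
      rw [Finset.mem_coe, Finset.mem_filter] at hκ
      exact hXmem κ hκ.2
    · intro κ hκ κ' hκ' h
      rw [Finset.mem_coe, Finset.mem_filter] at hκ hκ'
      exact hXinj hκ.2 hκ'.2 h
  omega

end Pool.Agent.H718.HG
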