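import Pool.Agent.H718.HG.Num
import Pool.Graph.R_seed8.TH476.KEnd

/-!
# Rational exponents for hypergraphs: assembly
-/

set_option autoImplicit false

open Classical

namespace Pool.Agent.H718.HG

open Pool.Agent.W979.TE Pool.Agent.W979.TE4 Pool.Agent.W979.TE5 Pool.Agent.TH476
  Pool.Agent.TH476.KK

/-- a rooted graph of density `e / m` with the conjectured upper bounds -/
def GT (m e : ℕ) : Prop :=
  ∃ (V : Type) (_ : Fintype V) (T : SimpleGraph V) (R : Set V) (col : V → Bool),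
    (∀ v, ∃ w, T.Adj v w) ∧ (∀ u v, T.Adj u v → col u ≠ col v) ∧ Rᶜ.ncard = m ∧ eS T Rᶜ = e ∧
    (∀ S : Set V, S ⊆ Rᶜ → e * S.ncard ≤ m * eS T S) ∧
    ∀ t : ℕ, 0 < t → ∃ C : ℝ, ∀ n : ℕ, ∀ G : SimpleGraph (Fin n), ¬ HasBU T R t G →
      (G.edgeSet.ncard : ℝ) ≤ C * (n : ℝ) ^ (2 - (m : ℝ) / e)

theorem gt_of_good {m e : ℕ} (h : Good m e) : GT m e := by
  obtain ⟨V, hV, T, R, col, hadm, h1, h2, h3, h4⟩ := h
  refine ⟨V, hV, T, R, col, ?_, hadm.prop, h1, h2, h3, ?_⟩
  · intro v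
    obtain ⟨a, -, ha⟩ := hadm.both true
    obtain ⟨b, -, hb⟩ := hadm.both false
    have hnt : Nontrivial V := ⟨⟨a, b, fun h => by rw [h, hb] at ha; exact absurd ha (by simp)⟩⟩
    have := hadm.conn.preconnected.exists_adj_of_nontrivial v
    exact this
  · intro t ht
    obtain ⟨C, hC⟩ := h4 t ht
    refine ⟨C, fun n G hG => ?_⟩
    have := hC n G hG
    rwa [one_div_div] at this

theorem gt_star (j : ℕ) (hj : 2 ≤ j) : GT 1 j := by
  refine ⟨Option (Fin j), inferInstance, KKmt.star j, KKmt.leaves j, fun x => x.isNone, ?_, ?_, ?_,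
    ?_, ?_, ?_⟩
  · intro v
    rcases v with _ | i
    · exact ⟨some ⟨0, by omega⟩, by simp [KKmt.star]⟩
    · exact ⟨none, by simp [KKmt.star]⟩
  · intro u v h
    exact h
  · rw [KKmt.compl_leaves, Set.ncard_singleton]
  · rw [KKmt.compl_leaves, KKmt.eS_star]
  · intro S hS
    rw [KKmt.compl_leaves] at hS
    rcases Set.subset_singleton_iff_eq.1 hS with h | h
    · rw [h, Set.ncard_empty, mul_zero]
      exact Nat.zero_le _
    · rw [h, Set.ncard_singleton, KKmt.eS_star, mul_one, one_mul]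
  · intro t ht
    refine ⟨(t : ℝ) + j, fun n G hG => ?_⟩
    have := KKmt.upper hj ht G hG
    rw [Nat.cast_one]
    refine le_trans (le_of_eq ?_) this
    congr 1
    rw [Set.ncard_eq_toFinset_card', SimpleGraph.edgeFinset]

/-- all densities -/
theorem gt_all (a b : ℕ) (ha : 0 < a) (hab : a < b) :
    ∃ m e : ℕ, 0 < m ∧ m < e ∧ (m : ℝ) / e = (a : ℝ) / b ∧ GT m e := by
  by_cases hdvd : a ∣ b
  · obtain ⟨m, rfl⟩ := hdvd
    have hm : 2 ≤ m := by
      by_contra hlt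
      have h1 : a * m ≤ a * 1 := Nat.mul_le_mul_left _ (by omega)
      omega
    refine ⟨1, m, one_pos, by omega, ?_, gt_star m hm⟩
    have ha' : (a : ℝ) ≠ 0 := by exact_mod_cast ha.ne'
    push_cast
    rw [div_mul_eq_div_div, div_self ha']
  · obtain ⟨r, hr⟩ : ∃ r, r = b % a := ⟨_, rfl⟩
    have hr1 : 0 < r := by
      rw [hr]
      exact Nat.pos_of_ne_zero fun h => hdvd (Nat.dvd_of_mod_eq_zero h)
    have hr2 : r < a := by
      rw [hr]
      exact Nat.mod_lt _ ha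
    obtain ⟨j, hj⟩ : ∃ j, b = a * j + r := ⟨b / a, by rw [hr]; exact (Nat.div_add_mod b a).symm⟩
    have hj1 : 1 ≤ j := by
      by_contra h0
      have : j = 0 := by omega
      rw [this, mul_zero] at hj
      omega
    obtain ⟨i, rfl⟩ : ∃ i, j = i + 1 := ⟨j - 1, by omega⟩
    obtain ⟨k, hk⟩ : ∃ k, k = (a - 1) / r := ⟨_, rfl⟩
    obtain ⟨c0, hc0⟩ : ∃ c0, c0 = (a - 1) % r := ⟨_, rfl⟩
    have h4 : r * k + c0 = a - 1 := by
      rw [hk, hc0]
      exact Nat.div_add_mod _ _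
    have h5 : c0 < r := by
      rw [hc0]
      exact Nat.mod_lt _ hr1
    have hk1 : 1 ≤ k := by
      rw [hk]
      exact (Nat.one_le_div_iff hr1).mpr (by omega)
    have h6 := goodK main_holds cat_holds gtd_holds k r (c0 + 1) hk1 (by omega) (by omega)
    have h7 : k * r + (c0 + 1) = a := by
      have : r * k = k * r := Nat.mul_comm _ _
      omega
    rw [h7] at h6
    have h8 := good_iter ha (by omega) h6 i
    have h9 : a + r + i * a = b := by
      rw [hj]
      ring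
    rw [h9] at h8
    exact ⟨a, b, ha, hab, rfl, gt_of_good h8⟩

/-- **Main theorem of the development**: for every uniformity `k ≥ 2` and all `0 < a < b` there is
a `k`-partite `k`-uniform hypergraph with Turan number of order `n ^ (k - a / b)` and `M`-colour
Ramsey number of order `M ^ (b / a)`. -/
theorem main (k : ℕ) (hk : 2 ≤ k) (a b : ℕ) (ha : 0 < a) (hab : a < b) :
    ∃ (v : ℕ) (F : Set (Finset (Fin v))), (∀ A ∈ F, A.card = k) ∧
      (∃ c : Fin v → Fin k, ∀ A ∈ F, ∀ x ∈ A, ∀ y ∈ A, c x = c y → x = y) ∧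
      (∃ C : ℝ, 0 ≤ C ∧ ∀ (n : ℕ) (G : Finset (Finset (Fin n))), (∀ A ∈ G, A.card = k) →
        ¬ Cont F (G : Set (Finset (Fin n))) →
        (G.card : ℝ) ≤ C * (n : ℝ) ^ ((k : ℝ) - (a : ℝ) / b)) ∧
      (∃ c : ℝ, 0 < c ∧ ∃ n0 : ℕ, ∀ n : ℕ, n0 ≤ n → ∃ G : Finset (Finset (Fin n)),
        (∀ A ∈ G, A.card = k) ∧ ¬ Cont F (G : Set (Finset (Fin n))) ∧
        c * (n : ℝ) ^ ((k : ℝ) - (a : ℝ) / b) ≤ (G.card : ℝ)) ∧
      (∃ C' : ℝ, ∀ M : ℕ, 0 < M → ∃ n : ℕ, (n : ℝ) ≤ C' * (M : ℝ) ^ ((b : ℝ) / a) ∧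
        ∀ χ : Finset (Fin n) → Fin M, ∃ c, Cont F {A | A.card = k ∧ χ A = c}) ∧
      (∃ c : ℝ, 0 < c ∧ ∃ M0 : ℕ, ∀ M : ℕ, M0 ≤ M → ∃ N : ℕ,
        c * (M : ℝ) ^ ((b : ℝ) / a) ≤ (N : ℝ) ∧ ∃ χ : Finset (Fin N) → Fin M,
          ∀ c, ¬ Cont F {A | A.card = k ∧ χ A = c}) := by
  obtain ⟨s, rfl⟩ : ∃ s, k = s + 2 := ⟨k - 2, by omega⟩
  obtain ⟨m, e, hm, hme, hab', V, _, T, R, col, hiso, hcol, hcard, he, hbal, hUB⟩ :=
    gt_all a b ha hab
  have hab2 : (b : ℝ) / a = (e : ℝ) / m := by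
    rw [← one_div_div (a : ℝ) b, ← hab', one_div_div]
  rw [← hab', hab2]
  obtain ⟨t, q0, ht, hlow⟩ := cone_lowq T R s m e hcard.symm he.symm hm hbal
  obtain ⟨C, hC⟩ := hUB t ht
  have hC' : ∀ n : ℕ, ∀ G : SimpleGraph (Fin n), ¬ HasBU T R t G →
      (G.edgeSet.ncard : ℝ) ≤ max C 0 * (n : ℝ) ^ (2 - (m : ℝ) / e) := fun n G hG =>
    (hC n G hG).trans (mul_le_mul_of_nonneg_right (le_max_left _ _) (by positivity))
  have hfinB : Finite (BV V R t) := by
    apply Finite.of_injective (fun p : BV V R t => ((p.1.1, (⟨p.1.2, p.2.1⟩ : Fin t)) : V × Fin t))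
    intro a b hab
    simp only [Prod.mk.injEq, Fin.mk.injEq] at hab
    exact Subtype.ext (Prod.ext hab.1 hab.2)
  have hfin : Fintype (BV V R t ⊕ Fin s) := Fintype.ofFinite _
  let eq := Fintype.equivFin (BV V R t ⊕ Fin s)
  have hu := cone_upper T R t s ht hiso (2 - (m : ℝ) / e) (max C 0) (le_max_right _ _) hC'
  -- transport
  let F : Set (Finset (Fin (Fintype.card (BV V R t ⊕ Fin s)))) :=
    (fun A : Finset (BV V R t ⊕ Fin s) => A.map eq.toEmbedding) '' cone T R t s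
  have htr : ∀ {W : Type} (G : Set (Finset W)), Cont F G ↔ Cont (cone T R t s) G := by
    intro W G
    constructor
    · rintro ⟨φ, hφ⟩
      refine ⟨eq.toEmbedding.trans φ, fun A hA => ?_⟩
      rw [← Finset.map_map]
      exact hφ _ ⟨A, hA, rfl⟩
    · rintro ⟨φ, hφ⟩
      refine ⟨eq.symm.toEmbedding.trans φ, ?_⟩
      rintro _ ⟨A, hA, rfl⟩
      have h1 : (A.map eq.toEmbedding).map (eq.symm.toEmbedding.trans φ) = A.map φ := by
        rw [Finset.map_map]
        congr 1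
        ext x
        simp
      simp only [h1]
      exact hφ A hA
  have hR : ∃ v0, v0 ∈ Rᶜ := by
    have : Rᶜ.Nonempty := by
      rw [← Set.ncard_pos]
      omega
    exact this
  obtain ⟨v0, hv0⟩ := hR
  let a0 : BV V R t := ⟨(v0, 0), ht, fun _ => rfl⟩
  have hcov : ∀ x, ∃ A ∈ cone T R t s, x ∈ A := by
    intro x
    rcases x with a | i
    · obtain ⟨b, hb⟩ := BU_nbr T R t ht hiso a
      exact ⟨_, ⟨a, b, hb, rfl⟩, by simp⟩
    · obtain ⟨b, hb⟩ := BU_nbr T R t ht hiso a0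
      exact ⟨_, ⟨a0, b, hb, rfl⟩, by simp⟩
  have hcovF : ∀ x, ∃ A ∈ F, x ∈ A := by
    intro x
    obtain ⟨A, hA, hx⟩ := hcov (eq.symm x)
    refine ⟨_, ⟨A, hA, rfl⟩, ?_⟩
    rw [Finset.mem_map]
    exact ⟨eq.symm x, hx, by simp⟩
  have hneF : F.Nonempty := by
    obtain ⟨A, hA, -⟩ := hcovF (eq (Sum.inl a0))
    exact ⟨A, hA⟩
  have hup : ∀ (n : ℕ) (G : Finset (Finset (Fin n))), (∀ A ∈ G, A.card = s + 2) →
        ¬ Cont F (G : Set (Finset (Fin n))) →
        (G.card : ℝ) ≤ max C 0 * (n : ℝ) ^ (((s + 2 : ℕ) : ℝ) - (m : ℝ) / e) := by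
    intro n G hG hfree
    rw [htr] at hfree
    have h1 := hu n G hG hfree
    have heR : (0 : ℝ) < e := by exact_mod_cast (by omega : 0 < e)
    have hmeR : (m : ℝ) / e < 1 := by
      rw [div_lt_one heR]; exact_mod_cast hme
    rcases Nat.eq_zero_or_pos n with hn0 | hn0
    · have : G = ∅ := by
        apply Finset.eq_empty_of_forall_notMem
        intro A hA
        have h1 := hG A hA
        have h2 := Finset.card_le_univ A
        rw [Fintype.card_fin] at h2
        omega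
      rw [this]
      simp only [Finset.card_empty, Nat.cast_zero]
      positivity
    · have hn : (0 : ℝ) < n := by exact_mod_cast hn0
      refine h1.trans (le_of_eq ?_)
      have h2 : ((s + 2 : ℕ) : ℝ) - (m : ℝ) / e = (s : ℝ) + (2 - (m : ℝ) / e) := by
        push_cast; ring
      rw [h2, Real.rpow_add hn, Real.rpow_natCast]
      ring
  have hCq : Colq F (s + 2) m e q0 := by
    intro p hp hpq
    have : Fact p.Prime := ⟨hp⟩
    have h1 := hlow (ZMod p) (by rw [ZMod.card]; exact hpq)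
    have h2 : Fintype.card (ZMod p) = p := ZMod.card p
    generalize Fintype.card (ZMod p) = q at h1 h2
    subst h2
    obtain ⟨χ, hχ⟩ := h1
    refine ⟨χ, fun c => ?_⟩
    rw [htr]
    exact hχ c
  refine ⟨_, F, ?_, ?_, ⟨max C 0, le_max_right _ _, hup⟩,
    turan_lower F (s + 2) m e hcovF hm hme hk q0 hCq,
    ramsey_upper F (s + 2) m e hm hme (max C 0) (le_max_right _ _) hup,
    ramsey_lower F (s + 2) m e hneF hm q0 hCq⟩
  · rintro _ ⟨A, hA, rfl⟩
    simp only [Finset.card_map]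
    exact cone_card T R t s A hA
  · let c0 : BV V R t ⊕ Fin s → Fin (s + 2) := fun x =>
      match x with
      | Sum.inl p => if col p.1.1 then 0 else 1
      | Sum.inr i => ⟨i.1 + 2, by omega⟩
    have key : ∀ A ∈ cone T R t s, ∀ x ∈ A, ∀ y ∈ A, c0 x = c0 y → x = y := by
      rintro A ⟨a, b, hab, rfl⟩ x hx y hy hxy
      have hne : col a.1.1 ≠ col b.1.1 := by
        rw [BU, SimpleGraph.fromRel_adj] at hab
        rcases hab.2 with h | h
        · exact hcol _ _ h.1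
        · exact (hcol _ _ h.1).symm
      have h01 : ∀ (p : BV V R t) (i : Fin s), c0 (Sum.inl p) ≠ c0 (Sum.inr i) := by
        intro p i h
        simp only [c0] at h
        have h1 := congrArg Fin.val h
        split_ifs at h1 <;> simp at h1
      have hll : ∀ p q : BV V R t, c0 (Sum.inl p) = c0 (Sum.inl q) → col p.1.1 = col q.1.1 := by
        intro p q h
        simp only [c0] at h
        cases hp : col p.1.1 <;> cases hq : col q.1.1 <;> simp_all
      simp only [Finset.mem_insert, Finset.mem_map, Finset.mem_univ, true_and,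
        Function.Embedding.inr_apply] at hx hy
      rcases hx with rfl | rfl | ⟨i, rfl⟩ <;> rcases hy with rfl | rfl | ⟨j, rfl⟩
      · rfl
      · exact absurd (hll _ _ hxy) hne
      · exact absurd hxy (h01 _ _)
      · exact absurd (hll _ _ hxy).symm hne
      · rfl
      · exact absurd hxy (h01 _ _)
      · exact absurd hxy.symm (h01 _ _)
      · exact absurd hxy.symm (h01 _ _)
      · simp only [c0, Fin.mk.injEq] at hxy
        rw [Fin.ext (by omega : i.1 = j.1)]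
    refine ⟨fun y => c0 (eq.symm y), ?_⟩
    rintro _ ⟨A, hA, rfl⟩ x hx y hy hxy
    rw [Finset.mem_map] at hx hy
    obtain ⟨x', hx', rfl⟩ := hx
    obtain ⟨y', hy', rfl⟩ := hy
    simp only [Equiv.coe_toEmbedding, Equiv.symm_apply_apply] at hxy ⊢
    rw [key A hA x' hx' y' hy' hxy]

end Pool.Agent.H718.HG
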