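import Pool.Agent.H718.HG.Cone

/-!
# From colourings over finite fields to the orders of magnitude
-/

set_option autoImplicit false

open Classical

namespace Pool.Agent.H718.HG

/-- a copy inside an image is a copy -/
theorem cont_pull {X α β : Type} (F : Set (Finset X)) (hcov : ∀ x, ∃ A ∈ F, x ∈ A) (ι : α ↪ β)
    (K : Set (Finset α)) (h : Cont F ((fun B : Finset α => B.map ι) '' K)) : Cont F K := by
  obtain ⟨φ, hφ⟩ := h
  have hx : ∀ x, ∃ a, ι a = φ x := by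
    intro x
    obtain ⟨A, hA, hxA⟩ := hcov x
    obtain ⟨B, -, hB⟩ := hφ A hA
    have h1 : φ x ∈ B.map ι := by
      have h2 : φ x ∈ A.map φ := Finset.mem_map_of_mem φ hxA
      rw [← hB] at h2
      exact h2
    obtain ⟨a, -, ha⟩ := Finset.mem_map.mp h1
    exact ⟨a, ha⟩
  choose g hg using hx
  have hginj : Function.Injective g := by
    intro x y h
    apply φ.injective
    rw [← hg x, ← hg y, h]
  refine ⟨⟨g, hginj⟩, ?_⟩
  intro A hA
  obtain ⟨B, hB1, hB2⟩ := hφ A hA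
  have h1 : (A.map ⟨g, hginj⟩).map ι = B.map ι := by
    simp only at hB2
    rw [hB2, Finset.map_map]
    congr 1
    ext x
    exact hg x
  rw [Finset.map_injective ι h1]
  exact hB1

/-- a copy in a restriction is a copy -/
theorem cont_push {X α β : Type} (F : Set (Finset X)) (ι : α ↪ β)
    (K : Set (Finset α)) (K' : Set (Finset β)) (hK : ∀ B ∈ K, B.map ι ∈ K') (h : Cont F K) :
    Cont F K' := by
  obtain ⟨φ, hφ⟩ := h
  refine ⟨φ.trans ι, fun A hA => ?_⟩
  rw [← Finset.map_map]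
  exact hK _ (hφ A hA)

/-- number of the subsets -/
theorem choose_ge (n k : ℕ) (h : 2 * k ≤ n) :
    ((n : ℝ) / 2) ^ k ≤ (k.factorial : ℝ) * (n.choose k : ℝ) := by
  have h1 : ((n + 1 - k : ℕ) : ℝ) ^ k ≤ (k.factorial : ℝ) * (n.choose k : ℝ) := by
    exact_mod_cast Nat.pow_sub_le_descFactorial n k |>.trans_eq (Nat.descFactorial_eq_factorial_mul_choose n k)
  refine le_trans (pow_le_pow_left₀ (by positivity) ?_ k) h1
  rw [Nat.cast_sub (by omega)]
  push_cast
  have : (2 : ℝ) * k ≤ n := by exact_mod_cast h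
  linarith

/-- a large colour class -/
theorem big_class (k N M : ℕ) (χ : Finset (Fin N) → Fin M) (hM : 0 < M) :
    ∃ c, N.choose k ≤ M * ((Finset.powersetCard k (Finset.univ : Finset (Fin N))).filter
      (fun A => χ A = c)).card := by
  by_contra hcon
  push Not at hcon
  have h1 := Finset.card_eq_sum_card_fiberwise (f := χ)
    (s := Finset.powersetCard k (Finset.univ : Finset (Fin N))) (t := Finset.univ)
    (fun _ _ => Finset.mem_coe.mpr (Finset.mem_univ _))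
  rw [Finset.card_powersetCard, Finset.card_univ, Fintype.card_fin] at h1
  have hne : (Finset.univ : Finset (Fin M)).Nonempty := ⟨⟨0, hM⟩, Finset.mem_univ _⟩
  have h2 : ∑ c : Fin M, M * ((Finset.powersetCard k (Finset.univ : Finset (Fin N))).filter
      (fun A => χ A = c)).card < ∑ _c : Fin M, N.choose k :=
    Finset.sum_lt_sum_of_nonempty hne fun c _ => hcon c
  rw [← Finset.mul_sum, Finset.sum_const, Finset.card_univ, Fintype.card_fin, smul_eq_mul] at h2
  have h3 := Nat.lt_of_mul_lt_mul_left h2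
  omega

section

variable {X : Type} (F : Set (Finset X)) (k m e : ℕ)

/-- colourings over the prime fields -/
def Colq (q0 : ℕ) : Prop := ∀ p : ℕ, p.Prime → q0 ≤ p →
  ∃ χ : Finset (Fin (p ^ e)) → Fin (p ^ m), ∀ c, ¬ Cont F {A | A.card = k ∧ χ A = c}

/-- the lower bound for the Turan number -/
theorem turan_lower (hcov : ∀ x, ∃ A ∈ F, x ∈ A) (hm : 0 < m) (hme : m < e) (hk : 2 ≤ k)
    (q0 : ℕ) (hq : Colq F k m e q0) :
    ∃ c : ℝ, 0 < c ∧ ∃ n0 : ℕ, ∀ n : ℕ, n0 ≤ n → ∃ G : Finset (Finset (Fin n)),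
      (∀ A ∈ G, A.card = k) ∧ ¬ Cont F (G : Set (Finset (Fin n))) ∧
      c * (n : ℝ) ^ ((k : ℝ) - (m : ℝ) / e) ≤ (G.card : ℝ) := by
  have he0 : 0 < e := by omega
  have heR : (0 : ℝ) < e := by exact_mod_cast he0
  have hmR : (0 : ℝ) < m := by exact_mod_cast hm
  have hmeR : (m : ℝ) / e < 1 := by
    rw [div_lt_one heR]; exact_mod_cast hme
  have hkR : (2 : ℝ) ≤ k := by exact_mod_cast hk
  set r : ℝ := (k : ℝ) - (m : ℝ) / e with hr
  have hr0 : 0 ≤ r := by rw [hr]; linarith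
  refine ⟨(1 / 2 ^ (e + 1)) ^ r / (2 ^ k * k.factorial), by positivity,
    2 * (2 * (q0 + 2 * k + 1)) ^ e, ?_⟩
  intro n hn
  obtain ⟨p, hp, hp1, hp2, hp3⟩ :=
    Pool.Agent.W493.TE.prime_choice e n (q0 + 2 * k + 1) he0 hn (by omega)
  obtain ⟨χ, hχ⟩ := hq p hp (by omega)
  obtain ⟨c, hc⟩ := big_class k (p ^ e) (p ^ m) χ (pow_pos hp.pos _)
  set K := (Finset.powersetCard k (Finset.univ : Finset (Fin (p ^ e)))).filter
      (fun A => χ A = c) with hK
  have hle : p ^ e ≤ n := by omega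
  let ι : Fin (p ^ e) ↪ Fin n := (Fin.castLEEmb hle)
  refine ⟨K.map (Finset.mapEmbedding ι).toEmbedding, ?_, ?_, ?_⟩
  · intro A hA
    rw [Finset.mem_map] at hA
    obtain ⟨B, hB, rfl⟩ := hA
    rw [hK, Finset.mem_filter, Finset.mem_powersetCard] at hB
    simpa using hB.1.2
  · intro h
    apply hχ c
    have h1 : Cont F (K : Set (Finset (Fin (p ^ e)))) := by
      apply cont_pull F hcov ι
      rw [Finset.coe_map] at h
      exact h
    obtain ⟨φ, hφ⟩ := h1
    refine ⟨φ, fun A hA => ?_⟩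
    have h2 := hφ A hA
    rw [Finset.mem_coe, hK, Finset.mem_filter, Finset.mem_powersetCard] at h2
    exact ⟨h2.1.2, h2.2⟩
  · rw [Finset.card_map]
    have hp0 : (0 : ℝ) < (p : ℝ) := by exact_mod_cast hp.pos
    have hN : 2 * k ≤ p ^ e := by
      calc 2 * k ≤ p := by omega
        _ ≤ p ^ e := Nat.le_self_pow (by omega) p
    have h1 := choose_ge (p ^ e) k hN
    have h2 : ((p ^ e).choose k : ℝ) ≤ (p : ℝ) ^ m * (K.card : ℝ) := by exact_mod_cast hc
    have h4 : ((p : ℝ) ^ e) ^ r = (p : ℝ) ^ (e * k - m : ℕ) := by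
      have hmk : m ≤ e * k := by nlinarith
      rw [← Real.rpow_natCast (p : ℝ) e, ← Real.rpow_mul hp0.le, ← Real.rpow_natCast]
      congr 1
      rw [hr, Nat.cast_sub hmk]
      push_cast
      field_simp
    have h5 : (n : ℝ) / 2 ^ (e + 1) ≤ (p : ℝ) ^ e := by
      rw [div_le_iff₀ (by positivity)]
      have : (n : ℝ) < 2 * (2 * (p : ℝ)) ^ e := by exact_mod_cast hp3
      have h6 : 2 * (2 * (p : ℝ)) ^ e = (p : ℝ) ^ e * 2 ^ (e + 1) := by
        rw [mul_pow, pow_succ]; ring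
      rw [h6] at this
      exact this.le
    have h7 : (p : ℝ) ^ (e * k - m : ℕ) * (p : ℝ) ^ m = ((p : ℝ) ^ e) ^ k := by
      rw [← pow_add, ← pow_mul]
      congr 1
      have hmk : m ≤ e * k := by nlinarith
      omega
    have h8 : (p : ℝ) ^ (e * k - m : ℕ) ≤ 2 ^ k * k.factorial * (K.card : ℝ) := by
      have hpm : (0 : ℝ) < (p : ℝ) ^ m := by positivity
      have h9 : (p : ℝ) ^ (e * k - m : ℕ) * (p : ℝ) ^ m ≤
          (2 ^ k * k.factorial * (K.card : ℝ)) * (p : ℝ) ^ m := by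
        rw [h7]
        have h10 : (((p ^ e : ℕ) : ℝ) / 2) ^ k = ((p : ℝ) ^ e) ^ k / 2 ^ k := by
          push_cast
          rw [div_pow]
        rw [h10, div_le_iff₀ (by positivity)] at h1
        calc ((p : ℝ) ^ e) ^ k ≤ (k.factorial : ℝ) * ((p ^ e).choose k : ℝ) * 2 ^ k := h1
          _ ≤ (k.factorial : ℝ) * ((p : ℝ) ^ m * (K.card : ℝ)) * 2 ^ k := by gcongr
          _ = _ := by ring
      exact le_of_mul_le_mul_right h9 hpm
    calc (1 / 2 ^ (e + 1)) ^ r / (2 ^ k * k.factorial) * (n : ℝ) ^ r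
        = ((n : ℝ) / 2 ^ (e + 1)) ^ r / (2 ^ k * k.factorial) := by
          rw [div_mul_eq_mul_div, ← Real.mul_rpow (by positivity) (by positivity)]
          congr 2
          ring
      _ ≤ ((p : ℝ) ^ e) ^ r / (2 ^ k * k.factorial) := by
          gcongr
      _ ≤ (K.card : ℝ) := by
          rw [h4, div_le_iff₀ (by positivity)]
          linarith

/-- the lower bound for the Ramsey number -/
theorem ramsey_lower (hne : F.Nonempty) (hm : 0 < m)
    (q0 : ℕ) (hq : Colq F k m e q0) :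
    ∃ c : ℝ, 0 < c ∧ ∃ M0 : ℕ, ∀ M : ℕ, M0 ≤ M → ∃ N : ℕ,
      c * (M : ℝ) ^ ((e : ℝ) / m) ≤ (N : ℝ) ∧ ∃ χ : Finset (Fin N) → Fin M,
        ∀ c, ¬ Cont F {A | A.card = k ∧ χ A = c} := by
  have hmR : (0 : ℝ) < m := by exact_mod_cast hm
  refine ⟨(1 / 2 ^ (m + 1)) ^ ((e : ℝ) / m), by positivity, 2 * (2 * (q0 + 1)) ^ m, ?_⟩
  intro M hM
  obtain ⟨p, hp, hp1, hp2, hp3⟩ := Pool.Agent.W493.TE.prime_choice m M (q0 + 1) hm hM (by omega)
  obtain ⟨χ, hχ⟩ := hq p hp (by omega)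
  have hle : p ^ m ≤ M := by omega
  refine ⟨p ^ e, ?_, fun A => Fin.castLE hle (χ A), ?_⟩
  · have hp0 : (0 : ℝ) < (p : ℝ) := by exact_mod_cast hp.pos
    have h5 : (M : ℝ) / 2 ^ (m + 1) ≤ (p : ℝ) ^ m := by
      rw [div_le_iff₀ (by positivity)]
      have : (M : ℝ) < 2 * (2 * (p : ℝ)) ^ m := by exact_mod_cast hp3
      have h6 : 2 * (2 * (p : ℝ)) ^ m = (p : ℝ) ^ m * 2 ^ (m + 1) := by
        rw [mul_pow, pow_succ]; ring
      rw [h6] at this
      exact this.le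
    have h4 : ((p : ℝ) ^ m) ^ ((e : ℝ) / m) = (p : ℝ) ^ e := by
      rw [← Real.rpow_natCast (p : ℝ) m, ← Real.rpow_mul hp0.le, ← Real.rpow_natCast]
      congr 1
      field_simp
    calc (1 / 2 ^ (m + 1)) ^ ((e : ℝ) / m) * (M : ℝ) ^ ((e : ℝ) / m)
        = ((M : ℝ) / 2 ^ (m + 1)) ^ ((e : ℝ) / m) := by
          rw [← Real.mul_rpow (by positivity) (by positivity)]
          congr 1
          ring
      _ ≤ ((p : ℝ) ^ m) ^ ((e : ℝ) / m) := by gcongr
      _ = (p : ℝ) ^ e := h4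
      _ = ((p ^ e : ℕ) : ℝ) := by push_cast; rfl
  · rintro c ⟨φ, hφ⟩
    obtain ⟨A0, hA0⟩ := hne
    have h1 := (hφ A0 hA0).2
    apply hχ (χ (A0.map φ))
    refine ⟨φ, fun A hA => ⟨(hφ A hA).1, ?_⟩⟩
    have h2 := (hφ A hA).2
    rw [← h1] at h2
    exact Fin.castLE_injective hle h2

/-- the upper bound for the Ramsey number -/
theorem ramsey_upper (hm : 0 < m) (hme : m < e) (C : ℝ) (hC : 0 ≤ C)
    (hup : ∀ (n : ℕ) (G : Finset (Finset (Fin n))), (∀ A ∈ G, A.card = k) →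
      ¬ Cont F (G : Set (Finset (Fin n))) →
      (G.card : ℝ) ≤ C * (n : ℝ) ^ ((k : ℝ) - (m : ℝ) / e)) :
    ∃ C' : ℝ, ∀ M : ℕ, 0 < M → ∃ n : ℕ, (n : ℝ) ≤ C' * (M : ℝ) ^ ((e : ℝ) / m) ∧
      ∀ χ : Finset (Fin n) → Fin M, ∃ c, Cont F {A | A.card = k ∧ χ A = c} := by
  have he0 : 0 < e := by omega
  have heR : (0 : ℝ) < e := by exact_mod_cast he0
  have hmR : (0 : ℝ) < m := by exact_mod_cast hm
  set D : ℝ := 2 ^ k * k.factorial * C + 1 with hD
  have hD1 : 1 ≤ D := by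
    rw [hD]
    have : 0 ≤ 2 ^ k * (k.factorial : ℝ) * C := by positivity
    linarith
  refine ⟨D ^ ((e : ℝ) / m) + (2 * k + 2), ?_⟩
  intro M hM
  have hM1 : (1 : ℝ) ≤ M := by exact_mod_cast hM
  have hMp : (1 : ℝ) ≤ (M : ℝ) ^ ((e : ℝ) / m) := Real.one_le_rpow hM1 (by positivity)
  set x : ℝ := (D * M) ^ ((e : ℝ) / m) with hx
  have hx0 : 0 ≤ x := by positivity
  obtain ⟨n, hn⟩ : ∃ n : ℕ, n = ⌈x⌉₊ + (2 * k + 1) := ⟨_, rfl⟩
  have hnx : x ≤ n := by
    rw [hn]
    push_cast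
    have := Nat.le_ceil x
    have hk0 : (0 : ℝ) ≤ k := Nat.cast_nonneg k
    linarith
  refine ⟨n, ?_, ?_⟩
  · have h1 := (Nat.ceil_lt_add_one hx0).le
    have h2 : (n : ℝ) ≤ x + (2 * k + 2) := by
      rw [hn]
      push_cast
      linarith
    refine h2.trans ?_
    rw [add_mul]
    have h3 : x = D ^ ((e : ℝ) / m) * (M : ℝ) ^ ((e : ℝ) / m) := by
      rw [hx, Real.mul_rpow (by linarith) (by positivity)]
    rw [← h3]
    have h4 : (0 : ℝ) ≤ 2 * k + 2 := by positivity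
    nlinarith
  · intro χ
    by_contra hcon
    push Not at hcon
    obtain ⟨c, hc⟩ := big_class k n M χ hM
    set K := (Finset.powersetCard k (Finset.univ : Finset (Fin n))).filter
      (fun A => χ A = c) with hK
    have h1 := hup n K (fun A hA => by
        rw [hK, Finset.mem_filter, Finset.mem_powersetCard] at hA
        exact hA.1.2) (by
        rintro ⟨φ, hφ⟩
        apply hcon c
        refine ⟨φ, fun A hA => ?_⟩
        have h2 := hφ A hA
        rw [Finset.mem_coe, hK, Finset.mem_filter, Finset.mem_powersetCard] at h2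
        exact ⟨h2.1.2, h2.2⟩)
    have hn2 : 2 * k ≤ n := by omega
    have hn0 : (0 : ℝ) < n := by
      have : 0 < n := by omega
      exact_mod_cast this
    have h3 := choose_ge n k hn2
    have h4 : (n.choose k : ℝ) ≤ (M : ℝ) * (K.card : ℝ) := by exact_mod_cast hc
    -- n ^ (m / e) ≥ D M
    have h5 : D * M ≤ (n : ℝ) ^ ((m : ℝ) / e) := by
      have h6 : x ^ ((m : ℝ) / e) = D * M := by
        rw [hx, ← Real.rpow_mul (by positivity)]
        have : (e : ℝ) / m * ((m : ℝ) / e) = 1 := by field_simp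
        rw [this, Real.rpow_one]
      rw [← h6]
      exact Real.rpow_le_rpow hx0 hnx (by positivity)
    have h6 : (n : ℝ) ^ k = (n : ℝ) ^ ((k : ℝ) - (m : ℝ) / e) * (n : ℝ) ^ ((m : ℝ) / e) := by
      rw [← Real.rpow_add hn0, sub_add_cancel, Real.rpow_natCast]
    have h7 : (0 : ℝ) < (n : ℝ) ^ ((k : ℝ) - (m : ℝ) / e) := by positivity
    have h8 : (n : ℝ) ^ k ≤ 2 ^ k * (k.factorial : ℝ) *
        ((M : ℝ) * (C * (n : ℝ) ^ ((k : ℝ) - (m : ℝ) / e))) := by
      rw [div_pow, div_le_iff₀ (by positivity)] at h3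
      calc (n : ℝ) ^ k ≤ (k.factorial : ℝ) * (n.choose k : ℝ) * 2 ^ k := h3
        _ ≤ (k.factorial : ℝ) * ((M : ℝ) * (C * (n : ℝ) ^ ((k : ℝ) - (m : ℝ) / e))) * 2 ^ k := by
            gcongr
            exact h4.trans (mul_le_mul_of_nonneg_left h1 (by positivity))
        _ = _ := by ring
    rw [h6] at h8
    have h9 : (n : ℝ) ^ ((m : ℝ) / e) ≤ 2 ^ k * (k.factorial : ℝ) * C * M := by
      have h10 : (n : ℝ) ^ ((k : ℝ) - (m : ℝ) / e) * (n : ℝ) ^ ((m : ℝ) / e) ≤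
          (n : ℝ) ^ ((k : ℝ) - (m : ℝ) / e) * (2 ^ k * (k.factorial : ℝ) * C * M) := by
        refine h8.trans (le_of_eq ?_)
        ring
      exact le_of_mul_le_mul_left h10 h7
    have h11 : D * M ≤ 2 ^ k * (k.factorial : ℝ) * C * M := h5.trans h9
    rw [hD] at h11
    nlinarith

end

end Pool.Agent.H718.HG
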